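import Mathlib

/-!
# H93.EZ.BlowA: counting in a blow-up
-/

set_option autoImplicit false

open Finset
open scoped Classical

namespace Pool.Agent.H93.EZ

/-- the cluster of an index -/
noncomputable def cl {n K : ℕ} (i : Fin (n * K)) : Fin n := (finProdFinEquiv.symm i).1

theorem card_cl {n K : ℕ} (u : Fin n) :
    (univ.filter fun i : Fin (n * K) => cl i = u).card = K := by
  have h : (univ.filter fun i : Fin (n * K) => cl i = u) =
      (univ : Finset (Fin K)).image fun a => finProdFinEquiv (u, a) := by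
    ext i
    rw [mem_filter, mem_image]
    constructor
    · rintro ⟨-, hi⟩
      refine ⟨(finProdFinEquiv.symm i).2, mem_univ _, ?_⟩
      have h2 : (u, (finProdFinEquiv.symm i).2) = finProdFinEquiv.symm i := by
        rw [← hi]
        rfl
      rw [h2, Equiv.apply_symm_apply]
    · rintro ⟨a, -, rfl⟩
      refine ⟨mem_univ _, ?_⟩
      unfold cl
      rw [Equiv.symm_apply_apply]
  rw [h, card_image_of_injective, card_univ, Fintype.card_fin]
  intro a b hab
  have := finProdFinEquiv.injective hab
  exact (Prod.mk.inj this).2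

theorem card_pairs {n K : ℕ} (A : Finset (Fin n × Fin n)) :
    (univ.filter fun p : Fin (n * K) × Fin (n * K) => (cl p.1, cl p.2) ∈ A).card =
      A.card * (K * K) := by
  have h := card_eq_sum_card_fiberwise
    (f := fun p : Fin (n * K) × Fin (n * K) => (cl p.1, cl p.2))
    (s := univ.filter fun p : Fin (n * K) × Fin (n * K) => (cl p.1, cl p.2) ∈ A) (t := A)
    (fun p hp => (mem_filter.1 hp).2)
  rw [h]
  have h2 : ∀ a ∈ A, ((univ.filter fun p : Fin (n * K) × Fin (n * K) =>
      (cl p.1, cl p.2) ∈ A).filter fun p => (cl p.1, cl p.2) = a).card = K * K := by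
    intro a ha
    have h3 : ((univ.filter fun p : Fin (n * K) × Fin (n * K) =>
        (cl p.1, cl p.2) ∈ A).filter fun p => (cl p.1, cl p.2) = a) =
        (univ.filter fun i : Fin (n * K) => cl i = a.1) ×ˢ
          (univ.filter fun i : Fin (n * K) => cl i = a.2) := by
      ext p
      simp only [mem_filter, mem_univ, true_and, mem_product]
      constructor
      · rintro ⟨-, h4⟩
        rw [← h4]
        exact ⟨rfl, rfl⟩
      · rintro ⟨h4, h5⟩
        have h6 : (cl p.1, cl p.2) = a := Prod.ext h4 h5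
        exact ⟨h6 ▸ ha, h6⟩
    rw [h3, card_product, card_cl, card_cl]
  rw [sum_congr rfl h2, sum_const, smul_eq_mul]

/-- the unordered pairs given by a relation -/
noncomputable def fam {N : ℕ} (R : Fin N → Fin N → Prop) : Finset (Finset (Fin N)) :=
  (univ.filter fun p : Fin N × Fin N => R p.1 p.2).image fun p => {p.1, p.2}

theorem fam_two {N : ℕ} {R : Fin N → Fin N → Prop} (hR : ∀ i, ¬ R i i) :
    ∀ e ∈ fam R, e.card = 2 := by
  intro e he
  unfold fam at he
  rw [mem_image] at he
  obtain ⟨p, hp, rfl⟩ := he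
  apply card_pair
  intro h
  have h2 := (mem_filter.1 hp).2
  rw [h] at h2
  exact hR _ h2

theorem pairs_le {N : ℕ} {R : Fin N → Fin N → Prop} (hR : ∀ i, ¬ R i i) :
    (univ.filter fun p : Fin N × Fin N => R p.1 p.2).card ≤ 2 * (fam R).card := by
  unfold fam
  refine card_le_mul_card_image _ 2 ?_
  intro e he
  rw [mem_image] at he
  obtain ⟨z, hz, rfl⟩ := he
  calc _ ≤ ({z, z.swap} : Finset (Fin N × Fin N)).card := by
        apply card_le_card
        rintro ⟨u, v⟩ hw
        rw [mem_filter] at hw
        have hwA : u ≠ v := by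
          intro h
          have h2 := (mem_filter.1 hw.1).2
          simp only at h2
          rw [h] at h2
          exact hR _ h2
        have h2 := hw.2
        simp only at h2
        have hx : u ∈ ({z.1, z.2} : Finset (Fin N)) := by rw [← h2]; simp
        have hy : v ∈ ({z.1, z.2} : Finset (Fin N)) := by rw [← h2]; simp
        rw [mem_insert, mem_singleton] at hx hy
        rw [mem_insert, mem_singleton]
        rcases hx with hx | hx <;> rcases hy with hy | hy
        · exact absurd (hx.trans hy.symm) hwA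
        · exact Or.inl (Prod.ext hx hy)
        · exact Or.inr (Prod.ext hx hy)
        · exact absurd (hx.trans hy.symm) hwA
    _ ≤ 2 := card_le_two

theorem met_le {N : ℕ} {R Q : Fin N → Fin N → Prop} (hR : ∀ i, ¬ R i i)
    (hs : ∀ i j, R i j → R j i) (P : Finset (Fin N) → Prop)
    (hQ : ∀ i j, R i j → P {i, j} → Q i j) :
    2 * ((fam R).filter P).card ≤
      (univ.filter fun p : Fin N × Fin N => R p.1 p.2 ∧ Q p.1 p.2).card := by
  set T := univ.filter fun p : Fin N × Fin N => R p.1 p.2 ∧ Q p.1 p.2 with hT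
  have h1 : ∀ e ∈ (fam R).filter P,
      2 ≤ (T.filter fun p => ({p.1, p.2} : Finset (Fin N)) = e).card := by
    intro e he
    rw [mem_filter] at he
    obtain ⟨he, hP⟩ := he
    unfold fam at he
    rw [mem_image] at he
    obtain ⟨p, hp, rfl⟩ := he
    have hp2 := (mem_filter.1 hp).2
    have hne : p.1 ≠ p.2 := by
      intro h
      rw [h] at hp2
      exact hR _ hp2
    have h2 : ({p, p.swap} : Finset (Fin N × Fin N)) ⊆
        (T.filter fun q => ({q.1, q.2} : Finset (Fin N)) = {p.1, p.2}) := by
      intro q hq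
      rw [mem_insert, mem_singleton] at hq
      rw [mem_filter, hT, mem_filter]
      rcases hq with rfl | rfl
      · exact ⟨⟨mem_univ _, hp2, hQ _ _ hp2 hP⟩, rfl⟩
      · refine ⟨⟨mem_univ _, hs _ _ hp2, ?_⟩, ?_⟩
        · apply hQ _ _ (hs _ _ hp2)
          rw [pair_comm]
          exact hP
        · simp only [Prod.fst_swap, Prod.snd_swap]
          exact pair_comm _ _
    have h3 : ({p, p.swap} : Finset (Fin N × Fin N)).card = 2 := by
      apply card_pair
      intro h
      exact hne (congrArg Prod.fst h)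
    rw [← h3]
    exact card_le_card h2
  calc 2 * ((fam R).filter P).card = ∑ _e ∈ (fam R).filter P, 2 := by
        rw [sum_const, smul_eq_mul, mul_comm]
    _ ≤ ∑ e ∈ (fam R).filter P,
        (T.filter fun p => ({p.1, p.2} : Finset (Fin N)) = e).card := sum_le_sum h1
    _ ≤ T.card := by
        rw [sum_card_fiberwise_eq_card_filter]
        exact card_filter_le _ _

/-- one cluster: the ordered pairs with product at most zero -/
theorem cluster_le {ι : Type*} (S : Finset ι) (g : ι → ℝ) :
    2 * ((S ×ˢ S).filter fun p => g p.1 * g p.2 ≤ 0).card ≤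
      S.card * S.card + 4 * ((S.filter fun i => g i = 0).card * S.card) := by
  set P := S.filter fun i => 0 < g i with hP
  set N := S.filter fun i => g i < 0 with hN
  set Z := S.filter fun i => g i = 0 with hZ
  have h1 : ((S ×ˢ S).filter fun p => g p.1 * g p.2 ≤ 0) ⊆
      ((P ×ˢ N) ∪ (N ×ˢ P)) ∪ ((Z ×ˢ S) ∪ (S ×ˢ Z)) := by
    rintro ⟨i, j⟩ h
    rw [mem_filter, mem_product] at h
    obtain ⟨⟨hi, hj⟩, h⟩ := h
    simp only at hi hj h
    simp only [mem_union, mem_product, hP, hN, hZ, mem_filter]
    rcases lt_trichotomy (g i) 0 with h2 | h2 | h2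
    · rcases lt_trichotomy (g j) 0 with h3 | h3 | h3
      · nlinarith
      · exact Or.inr (Or.inr ⟨hi, hj, h3⟩)
      · exact Or.inl (Or.inr ⟨⟨hi, h2⟩, hj, h3⟩)
    · exact Or.inr (Or.inl ⟨⟨hi, h2⟩, hj⟩)
    · rcases lt_trichotomy (g j) 0 with h3 | h3 | h3
      · exact Or.inl (Or.inl ⟨⟨hi, h2⟩, hj, h3⟩)
      · exact Or.inr (Or.inr ⟨hi, hj, h3⟩)
      · nlinarith
  have h2 := card_le_card h1
  have h3 := card_union_le ((P ×ˢ N) ∪ (N ×ˢ P)) ((Z ×ˢ S) ∪ (S ×ˢ Z))
  have h4 := card_union_le (P ×ˢ N) (N ×ˢ P)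
  have h5 := card_union_le (Z ×ˢ S) (S ×ˢ Z)
  rw [card_product, card_product] at h4 h5
  have h6 : P.card + N.card ≤ S.card := by
    rw [← card_union_of_disjoint]
    · apply card_le_card
      intro i hi
      rw [mem_union, hP, hN, mem_filter, mem_filter] at hi
      rcases hi with hi | hi <;> exact hi.1
    · rw [disjoint_left]
      intro i hi hj
      rw [hP, mem_filter] at hi
      rw [hN, mem_filter] at hj
      linarith [hi.2, hj.2]
  have h7 : 4 * (P.card * N.card) ≤ S.card * S.card := by
    have h8 : (P.card + N.card) * (P.card + N.card) ≤ S.card * S.card := Nat.mul_le_mul h6 h6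
    have h9 : 4 * (P.card * N.card) ≤ (P.card + N.card) * (P.card + N.card) := by
      zify
      nlinarith [sq_nonneg ((P.card : ℤ) - N.card)]
    exact h9.trans h8
  nlinarith

theorem count_main {n K : ℕ} {adj : Fin n → Fin n → Prop} (g0 : Fin n → ℝ)
    (g : Fin (n * K) → ℝ)
    (hA : ∀ i j, 0 < g0 (cl i) * g0 (cl j) → 0 < g i * g j)
    (hZ : (univ.filter fun i => g i = 0).card ≤ 2)
    (hZ0 : (univ.filter fun u => g0 u = 0).card ≤ 2) {f : ℕ}
    (hf : (univ.filter fun p : Fin n × Fin n =>
      adj p.1 p.2 ∧ g0 p.1 * g0 p.2 ≤ 0).card ≤ 2 * f) :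
    (univ.filter fun p : Fin (n * K) × Fin (n * K) =>
      (p.1 ≠ p.2 ∧ (cl p.1 = cl p.2 ∨ adj (cl p.1) (cl p.2))) ∧ g p.1 * g p.2 ≤ 0).card ≤
      2 * f * (K * K) + K * K + 4 * K := by
  set T1 := univ.filter fun p : Fin (n * K) × Fin (n * K) => (cl p.1, cl p.2) ∈
    (univ.filter fun p : Fin n × Fin n => adj p.1 p.2 ∧ g0 p.1 * g0 p.2 ≤ 0) with hT1
  set T2 := univ.filter fun p : Fin (n * K) × Fin (n * K) =>
    cl p.1 = cl p.2 ∧ g0 (cl p.1) = 0 ∧ g p.1 * g p.2 ≤ 0 with hT2
  set U := univ.filter fun u => g0 u = 0 with hU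
  have h1 : (univ.filter fun p : Fin (n * K) × Fin (n * K) =>
      (p.1 ≠ p.2 ∧ (cl p.1 = cl p.2 ∨ adj (cl p.1) (cl p.2))) ∧ g p.1 * g p.2 ≤ 0) ⊆
      T1 ∪ T2 := by
    intro p hp
    obtain ⟨⟨-, h2⟩, h3⟩ := (mem_filter.1 hp).2
    have h4 : g0 (cl p.1) * g0 (cl p.2) ≤ 0 := by
      by_contra h4
      push Not at h4
      have := hA _ _ h4
      linarith
    rw [mem_union]
    rcases h2 with h2 | h2
    · right
      rw [hT2, mem_filter]
      refine ⟨mem_univ _, h2, ?_, h3⟩
      rw [← h2] at h4
      exact mul_self_eq_zero.1 (le_antisymm h4 (mul_self_nonneg _))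
    · left
      rw [hT1, mem_filter, mem_filter]
      exact ⟨mem_univ _, mem_univ _, h2, h4⟩
  have h2 : T1.card ≤ 2 * f * (K * K) := by
    rw [hT1, card_pairs]
    exact Nat.mul_le_mul_right _ hf
  have h3 : 2 * T2.card ≤ 2 * (K * K) + 8 * K := by
    have h4 := card_eq_sum_card_fiberwise (f := fun p : Fin (n * K) × Fin (n * K) => cl p.1)
      (s := T2) (t := U) (by
        intro p hp
        rw [hU, mem_coe, mem_filter]
        exact ⟨mem_univ _, (mem_filter.1 hp).2.2.1⟩)
    rw [h4, mul_sum]
    have h5 : ∀ u ∈ U, 2 * (T2.filter fun p => cl p.1 = u).card ≤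
        K * K + 4 * (((univ.filter fun i => g i = 0).filter fun i => cl i = u).card * K) := by
      intro u _
      have h6 := cluster_le (univ.filter fun i : Fin (n * K) => cl i = u) g
      rw [card_cl] at h6
      have h7 : ((univ.filter fun i : Fin (n * K) => cl i = u).filter fun i => g i = 0) =
          ((univ.filter fun i => g i = 0).filter fun i => cl i = u) := by
        rw [filter_filter, filter_filter]
        congr 1
        ext i
        rw [and_comm]
      rw [h7] at h6
      refine le_trans (Nat.mul_le_mul_left 2 (card_le_card ?_)) h6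
      intro p hp
      rw [mem_filter, hT2, mem_filter] at hp
      obtain ⟨⟨-, h8, -, h9⟩, h10⟩ := hp
      rw [mem_filter, mem_product, mem_filter, mem_filter]
      exact ⟨⟨⟨mem_univ _, h10⟩, ⟨mem_univ _, h8 ▸ h10⟩⟩, h9⟩
    refine (sum_le_sum h5).trans ?_
    rw [sum_add_distrib, sum_const, smul_eq_mul, ← mul_sum, ← sum_mul,
      sum_card_fiberwise_eq_card_filter]
    have h8 : ((univ.filter fun i => g i = 0).filter fun i => cl i ∈ U).card ≤ 2 :=
      (card_filter_le _ _).trans hZ
    have h9 : U.card * (K * K) ≤ 2 * (K * K) := Nat.mul_le_mul_right _ hZ0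
    have h10 : ((univ.filter fun i => g i = 0).filter fun i => cl i ∈ U).card * K ≤ 2 * K :=
      Nat.mul_le_mul_right _ h8
    omega
  have h4 := (card_le_card h1).trans (card_union_le _ _)
  omega

/-- the number of ordered pairs in the blow-up -/
theorem count_all {n K : ℕ} {adj : Fin n → Fin n → Prop} (hadj : ∀ u, ¬ adj u u) :
    (univ.filter fun p : Fin n × Fin n => adj p.1 p.2).card * (K * K) + n * (K * K) ≤
      (univ.filter fun p : Fin (n * K) × Fin (n * K) =>
        p.1 ≠ p.2 ∧ (cl p.1 = cl p.2 ∨ adj (cl p.1) (cl p.2))).card + n * K := by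
  have h1 := card_pairs (K := K) (univ.filter fun p : Fin n × Fin n => adj p.1 p.2)
  have h2 := card_pairs (K := K) (univ.filter fun p : Fin n × Fin n => p.1 = p.2)
  have h3 : (univ.filter fun p : Fin n × Fin n => p.1 = p.2).card = n := by
    have : (univ.filter fun p : Fin n × Fin n => p.1 = p.2) =
        (univ : Finset (Fin n)).image fun u => (u, u) := by
      ext ⟨a, b⟩
      simp only [mem_filter, mem_univ, true_and, mem_image, Prod.mk.injEq]
      constructor
      · intro h
        exact ⟨a, rfl, h⟩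
      · rintro ⟨x, rfl, rfl⟩
        rfl
    rw [this, card_image_of_injective, card_univ, Fintype.card_fin]
    intro a b hab
    exact (Prod.mk.inj hab).1
  have h4 : (univ.filter fun p : Fin (n * K) × Fin (n * K) => p.1 = p.2).card = n * K := by
    have : (univ.filter fun p : Fin (n * K) × Fin (n * K) => p.1 = p.2) =
        (univ : Finset (Fin (n * K))).image fun u => (u, u) := by
      ext ⟨a, b⟩
      simp only [mem_filter, mem_univ, true_and, mem_image, Prod.mk.injEq]
      constructor
      · intro h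
        exact ⟨a, rfl, h⟩
      · rintro ⟨x, rfl, rfl⟩
        rfl
    rw [this, card_image_of_injective, card_univ, Fintype.card_fin]
    intro a b hab
    exact (Prod.mk.inj hab).1
  rw [h3] at h2
  rw [← h1, ← h2, ← card_union_of_disjoint]
  · refine le_trans (card_le_card ?_) (le_trans (card_union_le _ _) (Nat.add_le_add_left h4.le _))
    intro p hp
    rw [mem_union, mem_filter, mem_filter, mem_filter, mem_filter] at hp
    rw [mem_union, mem_filter, mem_filter]
    by_cases h5 : p.1 = p.2
    · exact Or.inr ⟨mem_univ _, h5⟩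
    · left
      refine ⟨mem_univ _, h5, ?_⟩
      rcases hp with hp | hp
      · exact Or.inr hp.2.2
      · exact Or.inl hp.2.2
  · rw [disjoint_left]
    intro p hp hq
    rw [mem_filter, mem_filter] at hp hq
    have h5 : adj (cl p.1) (cl p.2) := hp.2.2
    have h6 : cl p.1 = cl p.2 := hq.2.2
    rw [h6] at h5
    exact hadj _ h5

end Pool.Agent.H93.EZ
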