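import Pool.Agent.H93.EZ.BlowA
import Pool.Agent.H93.EL.Lin
import Pool.Agent.H82.EU.Up

/-!
# H93.EZ.BlowB: lines near a blow-up
-/

set_option autoImplicit false

open Finset Pool.Agent.H68 Pool.Agent.H56.Elss Pool.Agent.H93.EL
open scoped Classical Topology

namespace Pool.Agent.H93.EZ

/-- the affine function with coefficients `w` -/
noncomputable def gl (w : Fin 3 → ℝ) (p : Pt 2) : ℝ := w 0 * p 0 + w 1 * p 1 - w 2

theorem gl_cont {N : ℕ} (i : Fin N) :
    Continuous fun z : (Fin N → Pt 2) × (Fin 3 → ℝ) => gl z.2 (z.1 i) := by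
  unfold gl
  fun_prop

theorem gl_const {w : Fin 3 → ℝ} (hw : w ≠ 0) (h : ¬ (w 0 ≠ 0 ∨ w 1 ≠ 0)) :
    w 2 ≠ 0 ∧ ∀ p, gl w p = - w 2 := by
  push Not at h
  refine ⟨?_, ?_⟩
  · intro h2
    apply hw
    funext i
    fin_cases i
    · exact h.1
    · exact h.2
    · exact h2
  · intro p
    unfold gl
    rw [h.1, h.2]
    ring

/-- a line contains at most two vertices -/
theorem zeros_le (G : GeomHyp 2 2) {w : Fin 3 → ℝ} (hw : w ≠ 0) {N : ℕ} {v : Fin N → Pt 2}
    (hv : Function.Injective v) (hV : ∀ i, v i ∈ G.V) :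
    (univ.filter fun i => gl w (v i) = 0).card ≤ 2 := by
  by_cases h : w 0 ≠ 0 ∨ w 1 ≠ 0
  · obtain ⟨q, x, hqx, hd⟩ := line_of (w 0) (w 1) (w 2) h
    have h1 := G.genPos (line[ℝ, q, x]) (by rw [finrank_line hqx])
    have h2 : (((univ.filter fun i => gl w (v i) = 0).image v : Finset (Pt 2)) : Set (Pt 2)) ⊆
        {z | z ∈ G.V ∧ z ∈ line[ℝ, q, x]} := by
      intro z hz
      rw [mem_coe, mem_image] at hz
      obtain ⟨i, hi, rfl⟩ := hz
      refine ⟨hV i, mem_line hqx ?_⟩
      have h3 := (mem_filter.1 hi).2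
      rw [hd]
      unfold gl at h3
      linarith
    have h3 := Set.ncard_le_ncard h2 (G.V.finite_toSet.subset (fun z hz => hz.1))
    rw [Set.ncard_coe_finset, card_image_of_injective _ hv] at h3
    exact h3.trans h1
  · obtain ⟨h2, h3⟩ := gl_const hw h
    have : (univ.filter fun i => gl w (v i) = 0) = ∅ := by
      rw [filter_eq_empty_iff]
      intro i _ hi
      rw [h3] at hi
      exact h2 (neg_eq_zero.1 hi)
    rw [this]
    simp

/-- the ordered pairs whose edge is met -/
theorem met_pairs (G : GeomHyp 2 2) {f : ℕ} (hf : ∀ L, IsFlat 1 L → numMet G L ≤ f)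
    {w : Fin 3 → ℝ} (hw : w ≠ 0) {N : ℕ} {v : Fin N → Pt 2} (hv : Function.Injective v) :
    (univ.filter fun p : Fin N × Fin N => ({v p.1, v p.2} : Finset (Pt 2)) ∈ G.E ∧
      gl w (v p.1) * gl w (v p.2) ≤ 0).card ≤ 2 * f := by
  by_cases h : w 0 ≠ 0 ∨ w 1 ≠ 0
  · obtain ⟨q, x, hqx, hd⟩ := line_of (w 0) (w 1) (w 2) h
    refine le_trans ?_ (Nat.mul_le_mul_left 2 (hf _ (isFlat_line hqx)))
    have hfin : {e : Finset (Pt 2) | e ∈ G.E ∧ Meets (line[ℝ, q, x]) e}.Finite :=
      G.E.finite_toSet.subset (fun e he => he.1)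
    have h1 := card_le_mul_card_image (f := fun p : Fin N × Fin N =>
      ({v p.1, v p.2} : Finset (Pt 2)))
      (univ.filter fun p : Fin N × Fin N => ({v p.1, v p.2} : Finset (Pt 2)) ∈ G.E ∧
      gl w (v p.1) * gl w (v p.2) ≤ 0) 2 ?_
    · refine h1.trans ?_
      apply Nat.mul_le_mul_left
      rw [← Set.ncard_coe_finset]
      apply Set.ncard_le_ncard _ hfin
      intro e he
      rw [mem_coe, mem_image] at he
      obtain ⟨z, hz, rfl⟩ := he
      obtain ⟨hzE, hs⟩ := (mem_filter.1 hz).2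
      refine ⟨hzE, ?_⟩
      unfold Meets
      rw [coe_insert, coe_singleton]
      have hd1 : det2 q x (v z.1) = - gl w (v z.1) := by
        rw [hd]
        unfold gl
        ring
      have hd2 : det2 q x (v z.2) = - gl w (v z.2) := by
        rw [hd]
        unfold gl
        ring
      rcases lt_trichotomy (gl w (v z.1)) 0 with h2 | h2 | h2
      · have h3 : 0 ≤ gl w (v z.2) := by
          by_contra h3
          push Not at h3
          nlinarith
        apply meets_of_sep hqx
        rw [hd1, hd2]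
        exact ⟨by linarith, by linarith⟩
      · refine ⟨v z.1, ?_, subset_convexHull ℝ _ (by simp)⟩
        apply mem_line hqx
        rw [hd1, h2, neg_zero]
      · rcases eq_or_lt_of_le (show gl w (v z.2) ≤ 0 by
            by_contra h3
            push Not at h3
            nlinarith) with h3 | h3
        · refine ⟨v z.2, ?_, subset_convexHull ℝ _ (by simp)⟩
          apply mem_line hqx
          rw [hd2, h3, neg_zero]
        · rw [Set.pair_comm (v z.1) (v z.2)]
          apply meets_of_sep hqx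
          rw [hd1, hd2]
          exact ⟨by linarith, by linarith⟩
    · intro e he
      rw [mem_image] at he
      obtain ⟨z, hz, rfl⟩ := he
      calc _ ≤ ({z, z.swap} : Finset (Fin N × Fin N)).card := by
            apply card_le_card
            rintro ⟨u, t⟩ hw'
            rw [mem_filter, mem_filter] at hw'
            obtain ⟨⟨-, hE, -⟩, h2⟩ := hw'
            simp only at h2 hE
            have hne : u ≠ t := by
              intro h3
              have h4 := G.card_eq _ hE
              rw [h3] at h4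
              simp at h4
            have hx : v u ∈ ({v z.1, v z.2} : Finset (Pt 2)) := by rw [← h2]; simp
            have hy : v t ∈ ({v z.1, v z.2} : Finset (Pt 2)) := by rw [← h2]; simp
            rw [mem_insert, mem_singleton] at hx hy
            rw [mem_insert, mem_singleton]
            rcases hx with hx | hx <;> rcases hy with hy | hy
            · exact absurd (hv (hx.trans hy.symm)) hne
            · exact Or.inl (Prod.ext (hv hx) (hv hy))
            · exact Or.inr (Prod.ext (hv hx) (hv hy))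
            · exact absurd (hv (hx.trans hy.symm)) hne
        _ ≤ 2 := card_le_two
  · obtain ⟨h2, h3⟩ := gl_const hw h
    have : (univ.filter fun p : Fin N × Fin N => ({v p.1, v p.2} : Finset (Pt 2)) ∈ G.E ∧
        gl w (v p.1) * gl w (v p.2) ≤ 0) = ∅ := by
      rw [filter_eq_empty_iff]
      rintro p _ ⟨-, hp⟩
      rw [h3, h3] at hp
      have : 0 < w 2 * w 2 := mul_self_pos.2 h2
      linarith
    rw [this]
    simp

/-- a line which meets a segment -/
theorem met_prod {L : AffineSubspace ℝ (Pt 2)} {w : Fin 3 → ℝ} (h : ∀ x ∈ L, gl w x = 0)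
    {a b : Pt 2} (hm : ((L : Set (Pt 2)) ∩ convexHull ℝ ({a, b} : Set (Pt 2))).Nonempty) :
    gl w a * gl w b ≤ 0 := by
  obtain ⟨x, hxL, hx⟩ := hm
  rw [convexHull_pair] at hx
  obtain ⟨s, t, hs, ht, hst, rfl⟩ := hx
  have h2 := h _ hxL
  have h3 : gl w (s • a + t • b) = s * gl w a + t * gl w b := by
    unfold gl
    simp only [PiLp.add_apply, PiLp.smul_apply, smul_eq_mul]
    have : w 2 = s * w 2 + t * w 2 := by rw [← add_mul, hst, one_mul]
    linear_combination -this
  rw [h3] at h2
  by_contra h5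
  push Not at h5
  rcases pos_and_pos_or_neg_and_neg_of_mul_pos h5 with ⟨h6, h7⟩ | ⟨h6, h7⟩
  · rcases eq_or_lt_of_le hs with h8 | h8
    · have : t = 1 := by linarith
      rw [← h8, this] at h2
      linarith
    · nlinarith [mul_pos h8 h6, mul_nonneg ht h7.le]
  · rcases eq_or_lt_of_le hs with h8 | h8
    · have : t = 1 := by linarith
      rw [← h8, this] at h2
      linarith
    · nlinarith [mul_pos h8 (neg_pos.2 h6), mul_nonneg ht (neg_pos.2 h7).le]

/-- every line has a normalised equation -/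
theorem line_unit (L : AffineSubspace ℝ (Pt 2)) (hL : IsFlat 1 L) :
    ∃ w ∈ Metric.sphere (0 : Fin 3 → ℝ) 1, ∀ x ∈ L, gl w x = 0 := by
  obtain ⟨α, β, c, hne, h⟩ := Pool.Agent.H82.EU.line_eq L hL
  set w : Fin 3 → ℝ := ![α, β, c] with hw
  have hw0 : w ≠ 0 := by
    intro h0
    rcases hne with h1 | h1
    · exact h1 (congrFun h0 0)
    · exact h1 (congrFun h0 1)
  have hn : 0 < ‖w‖ := norm_pos_iff.2 hw0
  refine ⟨‖w‖⁻¹ • w, ?_, ?_⟩
  · rw [mem_sphere_zero_iff_norm, norm_smul, norm_inv, norm_norm, inv_mul_cancel₀ hn.ne']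
  · intro x hx
    have h1 := h x hx
    unfold gl
    simp only [Pi.smul_apply, smul_eq_mul]
    have h2 : w 0 = α := rfl
    have h3 : w 1 = β := rfl
    have h4 : w 2 = c := rfl
    rw [h2, h3, h4]
    linear_combination ‖w‖⁻¹ * h1

/-- the relation of the blow-up -/
def Rel {n K : ℕ} (G : GeomHyp 2 2) (v : Fin n → Pt 2) (i j : Fin (n * K)) : Prop :=
  i ≠ j ∧ (cl i = cl j ∨ ({v (cl i), v (cl j)} : Finset (Pt 2)) ∈ G.E)

theorem rel_irr {n K : ℕ} (G : GeomHyp 2 2) (v : Fin n → Pt 2) (i : Fin (n * K)) :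
    ¬ Rel G v i i := fun h => h.1 rfl

theorem rel_symm {n K : ℕ} (G : GeomHyp 2 2) (v : Fin n → Pt 2) (i j : Fin (n * K))
    (h : Rel G v i j) : Rel G v j i :=
  ⟨h.1.symm, h.2.imp Eq.symm fun h2 => by rw [pair_comm]; exact h2⟩

theorem near (G : GeomHyp 2 2) {f : ℕ} (hf : ∀ L, IsFlat 1 L → numMet G L ≤ f) {n : ℕ}
    {v : Fin n → Pt 2} (hv : Function.Injective v) (hV : ∀ i, v i ∈ G.V) (K : ℕ) :
    ∀ᶠ q in 𝓝 (fun i : Fin (n * K) => v (cl i)), ∀ w ∈ Metric.sphere (0 : Fin 3 → ℝ) 1,
      GP q → w ≠ 0 → (univ.filter fun p : Fin (n * K) × Fin (n * K) =>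
        Rel G v p.1 p.2 ∧ gl w (q p.1) * gl w (q p.2) ≤ 0).card ≤
      2 * f * (K * K) + K * K + 4 * K := by
  refine IsCompact.eventually_forall_of_forall_eventually (isCompact_sphere 0 1) ?_
  intro w0 hw0
  have hw0' : w0 ≠ 0 := by
    intro h
    rw [h] at hw0
    simp at hw0
  have h1 : ∀ᶠ z : (Fin (n * K) → Pt 2) × (Fin 3 → ℝ) in
      𝓝 ((fun i : Fin (n * K) => v (cl i)), w0), ∀ i j : Fin (n * K),
        0 < gl w0 (v (cl i)) * gl w0 (v (cl j)) → 0 < gl z.2 (z.1 i) * gl z.2 (z.1 j) := by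
    rw [Filter.eventually_all]
    intro i
    rw [Filter.eventually_all]
    intro j
    by_cases h : 0 < gl w0 (v (cl i)) * gl w0 (v (cl j))
    · have h2 : Continuous fun z : (Fin (n * K) → Pt 2) × (Fin 3 → ℝ) =>
          gl z.2 (z.1 i) * gl z.2 (z.1 j) := (gl_cont i).mul (gl_cont j)
      filter_upwards [h2.continuousAt.eventually (lt_mem_nhds h)] with z hz _
      exact hz
    · exact Filter.Eventually.of_forall fun z h2 => absurd h2 h
  filter_upwards [h1] with z hz hGP hne
  have hq := hGP.injective (by norm_num)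
  have h2 := count_main (K := K) (adj := fun u t => ({v u, v t} : Finset (Pt 2)) ∈ G.E)
    (fun u => gl w0 (v u)) (fun i => gl z.2 (z.1 i)) hz ?_ ?_ (f := f)
    (by convert met_pairs G hf hw0' hv)
  · have h3 : (univ.filter fun p : Fin (n * K) × Fin (n * K) =>
        (p.1 ≠ p.2 ∧ (cl p.1 = cl p.2 ∨ ({v (cl p.1), v (cl p.2)} : Finset (Pt 2)) ∈ G.E)) ∧
          gl z.2 (z.1 p.1) * gl z.2 (z.1 p.2) ≤ 0).card ≤
        2 * f * (K * K) + K * K + 4 * K := by
      convert h2
    refine le_trans (card_le_card ?_) h3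
    intro p hp
    have hp2 := (mem_filter.1 hp).2
    refine mem_filter.2 ⟨mem_univ _, ?_⟩
    exact hp2
  · have h3 := zeros_le (mkHyp (d := 2) (r := 2) (by norm_num) (by norm_num) z.1 hGP ∅
      (by simp)) hne hq (by
        intro i
        unfold mkHyp
        simp)
    exact h3
  · exact zeros_le G hw0' hv hV

end Pool.Agent.H93.EZ
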