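import Pool.Agent.H82.EU.Up

/-!
# H93.EZ.UpB: the upper bound `(m/n + 3/2)²`

Vertices on a convex curve, all edges of cyclic length at most `l = m / n` and a balanced set of
edges of length `l + 1`.
-/

set_option autoImplicit false

open Finset Module

namespace Pool.Agent.H93.EZ

open Pool.Agent.H68 Pool.Agent.H9.SC Pool.Agent.H82.EU
open scoped Classical

/-- the balanced set of starting points -/
def bal (n s : ℕ) : Finset ℕ := (range n).filter fun i => i * s / n < (i + 1) * s / n

theorem bal_step {n s : ℕ} (hn : 0 < n) (i : ℕ) :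
    (if i % n ∈ bal n s then 1 else 0) + i * s / n ≤ (i + 1) * s / n := by
  have h1 : i * s / n = (i % n) * s / n + s * (i / n) := by
    have : i * s = (i % n) * s + n * (s * (i / n)) := by
      conv_lhs => rw [← Nat.mod_add_div i n]
      ring
    rw [this, Nat.add_mul_div_left _ _ hn]
  have h2 : (i + 1) * s / n = (i % n + 1) * s / n + s * (i / n) := by
    have : (i + 1) * s = (i % n + 1) * s + n * (s * (i / n)) := by
      conv_lhs => rw [← Nat.mod_add_div i n]
      ring
    rw [this, Nat.add_mul_div_left _ _ hn]
  rw [h1, h2]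
  have h3 : (i % n) * s / n ≤ (i % n + 1) * s / n := by
    apply Nat.div_le_div_right
    nlinarith
  split_ifs with h
  · have := (mem_filter.1 h).2
    omega
  · omega

theorem bal_window {n s p : ℕ} (hn : 0 < n) (hp : p < n) : ∀ t, t < n →
    ((range (t + 1)).filter fun u => (p + (n - u)) % n ∈ bal n s).card + (p + n - t) * s / n ≤
      (p + n + 1) * s / n := by
  intro t
  induction t with
  | zero =>
    intro _
    have h1 := bal_step (s := s) hn (p + n)
    have h2 : ((range (0 + 1)).filter fun u => (p + (n - u)) % n ∈ bal n s).card =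
        if (p + n) % n ∈ bal n s then 1 else 0 := by
      rw [zero_add, range_one, filter_singleton]
      simp only [Nat.sub_zero]
      split_ifs <;> rfl
    rw [h2]
    exact h1
  | succ t ih =>
    intro ht
    have h1 := ih (by omega)
    have h2 := bal_step (s := s) hn (p + n - (t + 1))
    rw [range_add_one, filter_insert]
    have h3 : p + (n - (t + 1)) = p + n - (t + 1) := by omega
    have h4 : p + n - (t + 1) + 1 = p + n - t := by omega
    rw [h4] at h2
    rw [h3]
    split_ifs with h
    · rw [if_pos h] at h2
      have h5 := card_insert_le (t + 1)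
        ((range (t + 1)).filter fun u => (p + (n - u)) % n ∈ bal n s)
      omega
    · rw [if_neg h] at h2
      omega

theorem bal_card {n s : ℕ} (hn : 0 < n) (hs : s ≤ n) : s ≤ (bal n s).card := by
  have h : ∀ k, k ≤ n → k * s / n ≤ ((range k).filter fun i => i ∈ bal n s).card := by
    intro k
    induction k with
    | zero => intro _; simp
    | succ k ih =>
      intro hk
      have h1 := ih (by omega)
      rw [range_add_one, filter_insert]
      have h2 : (k + 1) * s / n ≤ k * s / n + 1 := by
        have h3 : (k + 1) * s ≤ k * s + n * 1 := by nlinarith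
        calc (k + 1) * s / n ≤ (k * s + n * 1) / n := Nat.div_le_div_right h3
          _ = k * s / n + 1 := Nat.add_mul_div_left _ _ hn
      split_ifs with h
      · rw [card_insert_of_notMem]
        · omega
        · intro h4
          have := (mem_filter.1 h4).1
          rw [mem_range] at this
          omega
      · have h3 : ¬ (k * s / n < (k + 1) * s / n) := by
          intro h4
          exact h (mem_filter.2 ⟨mem_range.2 (by omega), h4⟩)
        omega
  have h1 := h n le_rfl
  rw [Nat.mul_div_cancel_left _ hn] at h1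
  refine h1.trans (card_le_card ?_)
  intro i hi
  exact (mem_filter.1 hi).2

/-- an arc which contains neither `p` nor `q` is not met; balanced version -/
theorem arc_count' {n : ℕ} {G : ℕ → ℝ} {p q t s W : ℕ} (hpq : p ≤ q) (hq : q < n) (ht : t < n)
    (h1 : ∀ i, p < i → i < q → G i < 0) (h2 : ∀ i, i < p → 0 < G i)
    (h3 : ∀ i, q < i → i < n → 0 < G i)
    (hW : ∀ x, x < n → ((range (t + 1)).filter fun u => (x + (n - u)) % n ∈ bal n s).card ≤ W) :
    ((bal n s).filter fun s => G s * G ((s + t) % n) ≤ 0).card ≤ 2 * W := by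
  have hsub : ((bal n s).filter fun s => G s * G ((s + t) % n) ≤ 0) ⊆
      ((range (t + 1)).filter fun u => (p + (n - u)) % n ∈ bal n s).image
        (fun u => (p + (n - u)) % n) ∪
      ((range (t + 1)).filter fun u => (q + (n - u)) % n ∈ bal n s).image
        (fun u => (q + (n - u)) % n) := by
    intro i hs
    rw [mem_filter] at hs
    obtain ⟨hbal, hs⟩ := hs
    have hsn : i < n := mem_range.1 (mem_filter.1 hbal).1
    -- the general fact
    have key : ∀ x, x < n → ∀ u, u ≤ t → (i + u = x ∨ i + u = x + n) → (x + (n - u)) % n = i := by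
      intro x hx u hu h
      rcases h with h | h
      · have : x + (n - u) = i + n := by omega
        rw [this, Nat.add_mod_right, Nat.mod_eq_of_lt hsn]
      · have : x + (n - u) = i := by omega
        rw [this, Nat.mod_eq_of_lt hsn]
    have hu : (∃ u, u ≤ t ∧ (i + u = p ∨ i + u = p + n)) ∨
        (∃ u, u ≤ t ∧ (i + u = q ∨ i + u = q + n)) := by
      by_contra hno
      push Not at hno
      obtain ⟨hp', hq'⟩ := hno
      rcases lt_or_ge i p with h4 | h4
      · -- left of p
        have h5 : i + t < p := by
          by_contra h6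
          exact (hp' (p - i) (by omega)).1 (by omega)
        rw [Nat.mod_eq_of_lt (by omega)] at hs
        exact absurd (mul_pos (h2 i h4) (h2 _ h5)) (not_lt.2 hs)
      · rcases lt_or_ge q i with h5 | h5
        · -- right of q
          rcases lt_or_ge (i + t) n with h6 | h6
          · rw [Nat.mod_eq_of_lt h6] at hs
            exact absurd (mul_pos (h3 i h5 hsn) (h3 _ (by omega) h6)) (not_lt.2 hs)
          · have h7 : i + t - n < p := by
              by_contra h8
              exact (hp' (p + n - i) (by omega)).2 (by omega)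
            have h8 : (i + t) % n = i + t - n := by
              rw [Nat.mod_eq_sub_mod h6, Nat.mod_eq_of_lt (by omega)]
            rw [h8] at hs
            exact absurd (mul_pos (h3 i h5 hsn) (h2 _ h7)) (not_lt.2 hs)
        · -- inside
          have h6 : p < i := by
            rcases eq_or_lt_of_le h4 with h7 | h7
            · exact absurd h7.symm (by simpa using (hp' 0 (Nat.zero_le _)).1)
            · exact h7
          have h7 : i < q := by
            rcases eq_or_lt_of_le h5 with h7 | h7
            · exact absurd h7 (by simpa using (hq' 0 (Nat.zero_le _)).1)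
            · exact h7
          have h8 : i + t < q := by
            by_contra h9
            exact (hq' (q - i) (by omega)).1 (by omega)
          rw [Nat.mod_eq_of_lt (by omega)] at hs
          exact absurd (mul_pos_of_neg_of_neg (h1 i h6 h7) (h1 _ (by omega) h8)) (not_lt.2 hs)
    rw [mem_union, mem_image, mem_image]
    rcases hu with ⟨u, hut, hu⟩ | ⟨u, hut, hu⟩
    · have h4 := key p (by omega) u hut hu
      exact Or.inl ⟨u, mem_filter.2 ⟨mem_range.2 (by omega), h4 ▸ hbal⟩, h4⟩
    · have h4 := key q hq u hut hu
      exact Or.inr ⟨u, mem_filter.2 ⟨mem_range.2 (by omega), h4 ▸ hbal⟩, h4⟩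
  refine (card_le_card hsub).trans ((card_union_le _ _).trans ?_)
  have e1 := card_image_le (s := (range (t + 1)).filter fun u => (p + (n - u)) % n ∈ bal n s)
    (f := fun u => (p + (n - u)) % n)
  have e2 := card_image_le (s := (range (t + 1)).filter fun u => (q + (n - u)) % n ∈ bal n s)
    (f := fun u => (q + (n - u)) % n)
  have e3 := hW p (by omega)
  have e4 := hW q hq
  omega

/-- the count for one length, convex case -/
theorem count_conv' {n t s W : ℕ} {α β c : ℝ} (hne : α ≠ 0 ∨ β ≠ 0) (hβ : 0 ≤ β) (ht : t < n)
    (hW : ∀ x, x < n → ((range (t + 1)).filter fun u => (x + (n - u)) % n ∈ bal n s).card ≤ W) :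
    ((bal n s).filter fun i => gq α β c i * gq α β c ((i + t) % n) ≤ 0).card ≤ 2 * W := by
  by_cases hI : ∃ i, i < n ∧ gq α β c i ≤ 0
  · -- the interval
    set I := (range n).filter fun i => gq α β c i ≤ 0 with hIdef
    have hIne : I.Nonempty := by
      obtain ⟨i, hi, h⟩ := hI
      exact ⟨i, mem_filter.2 ⟨mem_range.2 hi, h⟩⟩
    set p := I.min' hIne with hp
    set q := I.max' hIne with hq
    have hpI := I.min'_mem hIne
    have hqI := I.max'_mem hIne
    rw [← hp] at hpI
    rw [← hq] at hqI
    have hpI' := mem_filter.1 hpI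
    have hqI' := mem_filter.1 hqI
    have hpq : p ≤ q := I.min'_le q hqI
    refine arc_count' (G := gq α β c) hpq (mem_range.1 hqI'.1) ht ?_ ?_ ?_ hW
    · intro i h1 h2
      have h3 := gq_interp α β c p i q
      have h4 : (0 : ℝ) < (q : ℝ) - p := by
        have : (p : ℝ) < q := by exact_mod_cast h1.trans h2
        linarith
      have h5 : (0 : ℝ) < (q : ℝ) - i := by
        have : (i : ℝ) < q := by exact_mod_cast h2
        linarith
      have h6 : (0 : ℝ) < (i : ℝ) - p := by
        have : (p : ℝ) < i := by exact_mod_cast h1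
        linarith
      by_contra h7
      push Not at h7
      have h8 : 0 ≤ ((q : ℝ) - p) * gq α β c i := mul_nonneg h4.le h7
      have h9 : ((q : ℝ) - i) * gq α β c p ≤ 0 := mul_nonpos_of_nonneg_of_nonpos h5.le hpI'.2
      have h10 : ((i : ℝ) - p) * gq α β c q ≤ 0 := mul_nonpos_of_nonneg_of_nonpos h6.le hqI'.2
      have h11 : 0 ≤ β * ((q : ℝ) - i) * ((i : ℝ) - p) * ((q : ℝ) - p) := by positivity
      have h12 : ((q : ℝ) - i) * gq α β c p = 0 := by linarith
      have h13 : ((i : ℝ) - p) * gq α β c q = 0 := by linarith
      have h14 : β * ((q : ℝ) - i) * ((i : ℝ) - p) * ((q : ℝ) - p) = 0 := by linarith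
      have h15 : gq α β c p = 0 := (mul_eq_zero.1 h12).resolve_left h5.ne'
      have h16 : gq α β c q = 0 := (mul_eq_zero.1 h13).resolve_left h6.ne'
      have h17 : β = 0 := by
        rcases mul_eq_zero.1 h14 with h | h
        · rcases mul_eq_zero.1 h with h | h
          · rcases mul_eq_zero.1 h with h | h
            · exact h
            · exact absurd h h5.ne'
          · exact absurd h h6.ne'
        · exact absurd h h4.ne'
      have h18 : α * ((q : ℝ) - p) = 0 := by
        unfold gq at h15 h16
        rw [h17] at h15 h16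
        linarith
      have h19 : α = 0 := (mul_eq_zero.1 h18).resolve_right h4.ne'
      rcases hne with h | h
      · exact h h19
      · exact h h17
    · intro i h1
      by_contra h2
      push Not at h2
      have h3 : i ∈ I := mem_filter.2 ⟨mem_range.2 (by
        have := mem_range.1 hpI'.1
        omega), h2⟩
      have := I.min'_le i h3
      omega
    · intro i h1 h1'
      by_contra h2
      push Not at h2
      have h3 : i ∈ I := mem_filter.2 ⟨mem_range.2 h1', h2⟩
      have := I.le_max' i h3
      omega
  · push Not at hI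
    have : ((bal n s).filter fun s => gq α β c s * gq α β c ((s + t) % n) ≤ 0) = ∅ := by
      rw [filter_eq_empty_iff]
      intro s hs
      have hs' := mem_range.1 (mem_filter.1 hs).1
      rw [not_le]
      exact mul_pos (hI s hs') (hI _ (Nat.mod_lt _ (by omega)))
    rw [this, card_empty]
    exact Nat.zero_le _

/-- the count for one length -/
theorem count_len' {n t s W : ℕ} {α β c : ℝ} (hne : α ≠ 0 ∨ β ≠ 0) (ht : t < n)
    (hW : ∀ x, x < n → ((range (t + 1)).filter fun u => (x + (n - u)) % n ∈ bal n s).card ≤ W) :
    ((bal n s).filter fun i => gq α β c i * gq α β c ((i + t) % n) ≤ 0).card ≤ 2 * W := by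
  rcases le_total 0 β with h | h
  · exact count_conv' hne h ht hW
  · have h1 := count_conv' (n := n) (t := t) (α := -α) (β := -β) (c := -c)
      (by rcases hne with h | h
          · exact Or.inl (neg_ne_zero.2 h)
          · exact Or.inr (neg_ne_zero.2 h)) (by linarith) ht hW
    have h2 : ∀ i, gq (-α) (-β) (-c) i = - gq α β c i := by
      intro i
      unfold gq
      ring
    simp only [h2, neg_mul_neg] at h1
    exact h1

theorem en_inj {n b : ℕ} (hn : 0 < n) (h : 2 * b < n) :
    Set.InjOn (en hn) (arcs n b : Set (ℕ × ℕ)) := by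
  rintro ⟨s, t⟩ hx ⟨s', t'⟩ hy hxy
  obtain ⟨h1, h2, h3, h4⟩ := mem_arcs hx
  obtain ⟨h1', h2', h3', h4'⟩ := mem_arcs hy
  dsimp only at h1 h2 h3 h4 h1' h2' h3' h4'
  unfold en at hxy
  dsimp only at hxy
  have e1 : (⟨s % n, Nat.mod_lt _ hn⟩ : Fin n) ∈
      ({⟨s' % n, Nat.mod_lt _ hn⟩, ⟨(s' + t') % n, Nat.mod_lt _ hn⟩} : Finset (Fin n)) := by
    rw [← hxy]
    exact mem_insert_self _ _
  have e2 : (⟨(s + t) % n, Nat.mod_lt _ hn⟩ : Fin n) ∈
      ({⟨s' % n, Nat.mod_lt _ hn⟩, ⟨(s' + t') % n, Nat.mod_lt _ hn⟩} : Finset (Fin n)) := by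
    rw [← hxy]
    exact mem_insert_of_mem (mem_singleton_self _)
  rw [mem_insert, mem_singleton, Fin.mk.injEq, Fin.mk.injEq] at e1 e2
  rw [Nat.mod_eq_of_lt h1, Nat.mod_eq_of_lt h1'] at e1
  rw [Nat.mod_eq_of_lt h1'] at e2
  have m1 := mod_two (x := s + t) (n := n) (by omega)
  have m2 := mod_two (x := s' + t') (n := n) (by omega)
  have : s = s' ∧ t = t' := by omega
  rw [this.1, this.2]

/-- the general form of the upper bound -/
theorem upper_gen {n m : ℕ} (hn : 0 < n) (F : Finset (Finset (Fin n)))
    (hF2 : ∀ e ∈ F, e.card = 2) (hFc : F.card = m) {T : ℕ}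
    (hT : ∀ α β c : ℝ, (α ≠ 0 ∨ β ≠ 0) → ∀ S : Finset (Finset (Fin n)), S ⊆ F →
      (∀ i j : Fin n, ({i, j} : Finset (Fin n)) ∈ S → gq α β c i * gq α β c j ≤ 0) → S.card ≤ T) :
    fval 2 2 1 m n ≤ T := by
  refine fval_le (mkHyp (by norm_num) (by norm_num) (mom 2 n) (mom_GP 2 n) F hF2)
    (mkHyp_card_V ..) (by rw [mkHyp_card_E]; exact hFc) ?_
  intro L hL
  obtain ⟨α, β, c, hne, hLx⟩ := line_eq L hL
  rw [mkHyp_numMet]
  refine hT α β c hne _ (filter_subset _ _) ?_
  intro i j hij
  exact met_sign hLx (mem_filter.1 hij).2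

theorem upper_sq {n m : ℕ} (h1 : 1 ≤ m) (hm : m ≤ n.choose 2) :
    (fval 2 2 1 m n : ℝ) ≤ ((m : ℝ) / n + 3 / 2) ^ 2 := by
  have hn : 0 < n := by
    rcases Nat.eq_zero_or_pos n with h | h
    · subst h
      simp at hm
      omega
    · exact h
  have hn' : (0 : ℝ) < n := by exact_mod_cast hn
  set l := m / n with hl
  set s := m % n with hs
  have hms : m = n * l + s := (Nat.div_add_mod m n).symm
  have hsn : s < n := Nat.mod_lt _ hn
  have hm2 : 2 * m ≤ n * (n - 1) := by
    rw [Nat.choose_two_right] at hm
    have := Nat.mul_div_le (n * (n - 1)) 2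
    omega
  have hl2 : 2 * l ≤ n - 1 := by
    by_contra h
    push Not at h
    have : n * (n - 1 + 1) ≤ n * (2 * l) := Nat.mul_le_mul_left n h
    nlinarith
  -- the real form of the estimate
  have fin : ∀ X : ℝ, X ≤ l * (l + 3) + 2 * (((l : ℝ) + 2) * s / n + 1) →
      X ≤ ((m : ℝ) / n + 3 / 2) ^ 2 := by
    intro X hX
    have e1 : (m : ℝ) / n = l + s / n := by
      rw [hms]
      push_cast
      field_simp
    rw [e1]
    set θ : ℝ := (s : ℝ) / n with hθ
    have e2 : ((l : ℝ) + 2) * s / n = (l + 2) * θ := by
      rw [hθ]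
      ring
    rw [e2] at hX
    nlinarith [sq_nonneg (θ - 1 / 2)]
  have hmet : ∀ α β c : ℝ, (α ≠ 0 ∨ β ≠ 0) → ∀ S : Finset (Finset (Fin n)), S ⊆ fam hn l →
      (∀ i j : Fin n, ({i, j} : Finset (Fin n)) ∈ S → gq α β c i * gq α β c j ≤ 0) →
      S.card ≤ l * (l + 3) := by
    intro α β c hne S hS hg
    refine le_trans ?_ (met_arcs (n := n) (b := l) (α := α) (β := β) (c := c) hne)
    have hsub : S ⊆
        ((arcs n l).filter fun x => gq α β c x.1 * gq α β c ((x.1 + x.2) % n) ≤ 0).image
          (en hn) := by
      intro e he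
      have h2 := hS he
      unfold fam at h2
      rw [mem_image] at h2 ⊢
      obtain ⟨x, hx, rfl⟩ := h2
      refine ⟨x, mem_filter.2 ⟨hx, ?_⟩, rfl⟩
      have h3 := hg _ _ he
      dsimp only at h3
      rw [Nat.mod_eq_of_lt (mem_arcs hx).1] at h3
      exact h3
    have h9 := (card_le_card hsub).trans (card_image_le (f := en hn))
    convert h9
  rcases lt_or_ge (2 * (l + 1)) n with hc | hc
  · -- the main case
    set A : Finset (ℕ × ℕ) := arcs n l ∪ (bal n s) ×ˢ {l + 1} with hA
    have hAsub : A ⊆ arcs n (l + 1) := by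
      intro x hx
      rw [hA, mem_union] at hx
      unfold arcs
      rw [mem_product, mem_range, mem_Icc]
      rcases hx with hx | hx
      · obtain ⟨h2, h3, h4, h5⟩ := mem_arcs hx
        omega
      · rw [mem_product, mem_singleton] at hx
        have := mem_range.1 (mem_filter.1 hx.1).1
        omega
    have hAc : m ≤ (A.image (en hn)).card := by
      rw [card_image_of_injOn ((en_inj hn hc).mono (by exact_mod_cast hAsub)), hA,
        card_union_of_disjoint]
      · unfold arcs
        rw [card_product, card_range, Nat.card_Icc, card_product, card_singleton]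
        have h2 := bal_card hn hsn.le
        have h3 : min l (n - 1) + 1 - 1 = l := by omega
        rw [h3]
        omega
      · rw [disjoint_left]
        intro x hx hy
        have h2 := (mem_arcs hx).2.2.1
        rw [mem_product, mem_singleton] at hy
        omega
    obtain ⟨F, hF, hFc⟩ := exists_subset_card_eq hAc
    have hF2 : ∀ e ∈ F, e.card = 2 := by
      intro e he
      obtain ⟨x, hx, rfl⟩ := mem_image.1 (hF he)
      exact en_card hn (hAsub hx)
    set W := (l + 2) * s / n + 1 with hW
    have hwin : ∀ x, x < n →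
        ((range (l + 1 + 1)).filter fun u => (x + (n - u)) % n ∈ bal n s).card ≤ W := by
      intro x hx
      have h2 := bal_window (s := s) hn hx (l + 1) (by omega)
      have h3 : (x + n + 1) * s / n ≤ (x + n - (l + 1)) * s / n + ((l + 2) * s / n + 1) := by
        have h4 : (x + n + 1) * s = (x + n - (l + 1)) * s + (l + 2) * s := by
          rw [← add_mul]
          congr 1
          omega
        rw [h4]
        have h6 := Nat.div_add_mod ((x + n - (l + 1)) * s) n
        have h7 := Nat.div_add_mod ((l + 2) * s) n
        have h8 := Nat.mod_lt ((x + n - (l + 1)) * s) hn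
        have h9 := Nat.mod_lt ((l + 2) * s) hn
        rw [← Nat.lt_succ_iff, Nat.div_lt_iff_lt_mul hn]
        nlinarith
      omega
    have hup := upper_gen hn F hF2 hFc (T := l * (l + 3) + 2 * W) (by
      intro α β c hne S hS hg
      have hsub : S ⊆ (S.filter fun e => e ∈ fam hn l) ∪
          (((bal n s).filter fun i => gq α β c i * gq α β c ((i + (l + 1)) % n) ≤ 0).image
            fun i => en hn (i, l + 1)) := by
        intro e he
        rw [mem_union]
        obtain ⟨x, hx, rfl⟩ := mem_image.1 (hF (hS he))
        rw [hA, mem_union] at hx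
        rcases hx with hx | hx
        · left
          exact mem_filter.2 ⟨he, mem_image.2 ⟨x, hx, rfl⟩⟩
        · right
          rw [mem_product, mem_singleton] at hx
          obtain ⟨x1, x2⟩ := x
          dsimp only at hx
          obtain ⟨hx1, rfl⟩ := hx
          refine mem_image.2 ⟨x1, mem_filter.2 ⟨hx1, ?_⟩, rfl⟩
          have h3 := hg _ _ he
          dsimp only at h3
          rw [Nat.mod_eq_of_lt (mem_range.1 (mem_filter.1 hx1).1)] at h3
          exact h3
      refine (card_le_card hsub).trans ((card_union_le _ _).trans (Nat.add_le_add ?_ ?_))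
      · apply hmet α β c hne
        · intro e he
          exact (mem_filter.1 he).2
        · intro i j hij
          exact hg i j (mem_filter.1 hij).1
      · exact card_image_le.trans (count_len' hne (by omega) hwin))
    apply fin
    have h2 : (fval 2 2 1 m n : ℝ) ≤ l * (l + 3) + 2 * W := by exact_mod_cast hup
    have h3 : (W : ℝ) ≤ ((l : ℝ) + 2) * s / n + 1 := by
      rw [hW]
      push_cast
      have h4 : (((l + 2) * s / n : ℕ) : ℝ) ≤ (((l + 2) * s : ℕ) : ℝ) / n := Nat.cast_div_le
      push_cast at h4
      linarith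
    linarith
  · -- few edges of length l + 1
    have hfc : n * l ≤ (fam hn l).card := fam_card hn le_rfl (by omega)
    have hfs : fam hn l ⊆ powersetCard 2 (univ : Finset (Fin n)) := by
      intro e he
      rw [mem_powersetCard]
      exact ⟨subset_univ _, fam_card_two hn he⟩
    have hfc2 : (fam hn l).card ≤ n * l := by
      unfold fam
      refine card_image_le.trans ?_
      unfold arcs
      rw [card_product, card_range, Nat.card_Icc]
      apply Nat.mul_le_mul_left
      omega
    obtain ⟨F, hF1, hF2, hFc⟩ := exists_subsuperset_card_eq hfs (n := m) (by omega) (by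
      rw [card_powersetCard, card_univ, Fintype.card_fin]
      exact hm)
    have hup := upper_gen hn F (fun e he => (mem_powersetCard.1 (hF2 he)).2) hFc
      (T := l * (l + 3) + s) (by
      intro α β c hne S hS hg
      have hsub : S ⊆ (S.filter fun e => e ∈ fam hn l) ∪ (F \ fam hn l) := by
        intro e he
        rw [mem_union, mem_filter, mem_sdiff]
        by_cases h : e ∈ fam hn l
        · exact Or.inl ⟨he, h⟩
        · exact Or.inr ⟨hS he, h⟩
      refine (card_le_card hsub).trans ((card_union_le _ _).trans (Nat.add_le_add ?_ ?_))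
      · apply hmet α β c hne
        · intro e he
          exact (mem_filter.1 he).2
        · intro i j hij
          exact hg i j (mem_filter.1 hij).1
      · rw [card_sdiff_of_subset hF1, hFc]
        omega)
    apply fin
    have h2 : (fval 2 2 1 m n : ℝ) ≤ l * (l + 3) + s := by exact_mod_cast hup
    have h3 : (s : ℝ) ≤ 2 * (((l : ℝ) + 2) * s / n) := by
      have h4 : (n : ℝ) ≤ 2 * (l + 1) := by exact_mod_cast hc
      rw [← mul_div_assoc, le_div_iff₀ hn']
      nlinarith [Nat.cast_nonneg (α := ℝ) s]
    linarith

end Pool.Agent.H93.EZ
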