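import Pool.Agent.H93.EZ.Sharp
import Pool.Agent.H93.EZ.UpB

/-!
# H93.EZ.Final: both bounds
-/

set_option autoImplicit false

namespace Pool.Agent.H93.EZ

open Pool.Agent.H68

theorem final (n m : ℕ) (hm1 : 1 ≤ m) (hmn : m ≤ n.choose 2) :
    (m : ℝ) ^ 2 / (n : ℝ) ^ 2 ≤ (fval 2 2 1 m n : ℝ) ∧
      ((m : ℝ) / (n : ℝ) + 1 / 2) ^ 2 - 1 / 2 ≤ (fval 2 2 1 m n : ℝ) ∧
      (fval 2 2 1 m n : ℝ) ≤ ((m : ℝ) / (n : ℝ) + 3 / 2) ^ 2 ∧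
      (fval 2 2 1 m n : ℝ) ≤ (⌈(m : ℝ) / (n : ℝ)⌉₊ : ℝ) * ((⌈(m : ℝ) / (n : ℝ)⌉₊ : ℝ) + 3) := by
  refine ⟨(full n m hm1 hmn).1, ?_, upper_sq hm1 hmn, (full n m hm1 hmn).2⟩
  have h := sharp hm1 hmn
  have h2 : ((m : ℝ) / (n : ℝ) + 1 / 2) ^ 2 - 1 / 2 =
      (m : ℝ) ^ 2 / (n : ℝ) ^ 2 + (m : ℝ) / n - 1 / 4 := by
    rw [← div_pow]
    ring
  rw [h2]
  exact h

end Pool.Agent.H93.EZ
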