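import Pool.Agent.H12.RS.Marks
import Pool.Agent.H82.EU.Up

/-!
# H93.EZ.Full: the conjecture of Erdős, Lovász, Simmons and Straus, with an upper bound
-/

set_option autoImplicit false

namespace Pool.Agent.H93.EZ

open Pool.Agent.H68

theorem full (n m : ℕ) (hm1 : 1 ≤ m) (hmn : m ≤ n.choose 2) :
    (m : ℝ) ^ 2 / (n : ℝ) ^ 2 ≤ (fval 2 2 1 m n : ℝ) ∧
      (fval 2 2 1 m n : ℝ) ≤ (⌈(m : ℝ) / (n : ℝ)⌉₊ : ℝ) * ((⌈(m : ℝ) / (n : ℝ)⌉₊ : ℝ) + 3) := by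
  refine ⟨Pool.Agent.H12.RS.elss hmn, ?_⟩
  have hn : 0 < n := by
    rcases Nat.eq_zero_or_pos n with h | h
    · subst h
      simp at hmn
      omega
    · exact h
  have hn' : (0 : ℝ) < n := by exact_mod_cast hn
  have h2 : (m : ℝ) / n ≤ ⌈(m : ℝ) / (n : ℝ)⌉₊ := Nat.le_ceil _
  have h4 : m ≤ n * ⌈(m : ℝ) / (n : ℝ)⌉₊ := by
    have h5 : (m : ℝ) ≤ n * ⌈(m : ℝ) / (n : ℝ)⌉₊ := by
      rw [div_le_iff₀ hn'] at h2
      linarith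
    exact_mod_cast h5
  have h5 := Pool.Agent.H82.EU.upper_nat hm1 h4 hmn
  exact_mod_cast h5

end Pool.Agent.H93.EZ
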