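import Pool.Agent.H93.EZ.BlowB
import Pool.Agent.H93.EZ.Full

/-!
# H93.EZ.Sharp: a lower order term from a blow-up
-/

set_option autoImplicit false

open Finset Pool.Agent.H68 Pool.Agent.H56.Elss Pool.Agent.H93.EL
open scoped Classical Topology

namespace Pool.Agent.H93.EZ

/-- a hypergraph with parameters `n`, `m` whose edges are met at most `fval` times -/
theorem exists_extremal {n m : ℕ} (hm : m ≤ n.choose 2) :
    ∃ G : GeomHyp 2 2, G.V.card = n ∧ G.E.card = m ∧
      ∀ L, IsFlat 1 L → numMet G L ≤ fval 2 2 1 m n := by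
  by_contra h
  push Not at h
  have h1 : fval 2 2 1 m n + 1 ≤ fval 2 2 1 m n := by
    apply le_fval (exists_geomHyp (by norm_num) (by norm_num) hm)
    intro G hn hm
    obtain ⟨L, hL, h2⟩ := h G hn hm
    exact ⟨L, hL, h2⟩
  omega

theorem blow {n m K : ℕ} (hm : m ≤ n.choose 2) :
    ∃ m' : ℕ, m' ≤ (n * K).choose 2 ∧
      2 * m * (K * K) + n * (K * K) ≤ 2 * m' + n * K ∧
      2 * fval 2 2 1 m' (n * K) ≤ 2 * fval 2 2 1 m n * (K * K) + K * K + 4 * K := by
  obtain ⟨G, hn, hmE, hf⟩ := exists_extremal hm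
  -- the vertices
  obtain ⟨v, hv, hV, hVs⟩ : ∃ v : Fin n → Pt 2, Function.Injective v ∧ (∀ i, v i ∈ G.V) ∧
      ∀ x ∈ G.V, ∃ i, v i = x := by
    subst hn
    refine ⟨fun i => (G.V.equivFin.symm i : Pt 2), ?_, ?_, ?_⟩
    · intro i j hij
      exact G.V.equivFin.symm.injective (Subtype.ext hij)
    · intro i
      exact (G.V.equivFin.symm i).2
    · intro x hx
      exact ⟨G.V.equivFin ⟨x, hx⟩, by simp⟩
  -- the ordered pairs of adjacent vertices
  have hadj : (univ.filter fun p : Fin n × Fin n =>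
      ({v p.1, v p.2} : Finset (Pt 2)) ∈ G.E).card = 2 * m := by
    rw [← hmE, ← ord_card G]
    apply card_bij (fun p _ => (v p.1, v p.2))
    · intro p hp
      have h1 := (mem_filter.1 hp).2
      unfold ord
      rw [mem_filter, mem_offDiag]
      refine ⟨⟨hV _, hV _, ?_⟩, h1⟩
      intro h2
      have h3 := G.card_eq _ h1
      have h4 : v p.1 = v p.2 := h2
      rw [h4] at h3
      simp at h3
    · intro p _ q _ hpq
      obtain ⟨h1, h2⟩ := Prod.mk.inj hpq
      exact Prod.ext (hv h1) (hv h2)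
    · rintro ⟨x, y⟩ hxy
      unfold ord at hxy
      rw [mem_filter, mem_offDiag] at hxy
      obtain ⟨⟨hx, hy, -⟩, hE⟩ := hxy
      obtain ⟨i, rfl⟩ := hVs x hx
      obtain ⟨j, rfl⟩ := hVs y hy
      exact ⟨(i, j), mem_filter.2 ⟨mem_univ _, hE⟩, rfl⟩
  have hirr : ∀ u : Fin n, ¬ ({v u, v u} : Finset (Pt 2)) ∈ G.E := by
    intro u h
    have := G.card_eq _ h
    simp at this
  -- a generic configuration near the blow-up
  obtain ⟨q, hq⟩ := (dense_GP 2 (n * K)).inter_nhds_nonempty (near G hf hv hV K)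
  have hGP : GP q := hq.1
  have hw := hq.2
  simp only [Set.mem_ofPred_eq] at hw
  set F := fam (Rel (K := K) G v) with hF
  have hF2 : ∀ e ∈ F, e.card = 2 := fam_two (rel_irr G v)
  have h1 := pairs_le (rel_irr (K := K) G v)
  rw [← hF] at h1
  have h2 := count_all (K := K) (adj := fun u t => ({v u, v t} : Finset (Pt 2)) ∈ G.E) hirr
  refine ⟨F.card, ?_, ?_, ?_⟩
  · have h3 : F ⊆ powersetCard 2 univ := by
      intro e he
      rw [mem_powersetCard]
      exact ⟨subset_univ _, hF2 e he⟩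
    have h4 := card_le_card h3
    rw [card_powersetCard, card_univ, Fintype.card_fin] at h4
    exact h4
  · have h3 : (univ.filter fun p : Fin (n * K) × Fin (n * K) =>
        p.1 ≠ p.2 ∧ (cl p.1 = cl p.2 ∨ ({v (cl p.1), v (cl p.2)} : Finset (Pt 2)) ∈ G.E)).card ≤
        (univ.filter fun p : Fin (n * K) × Fin (n * K) => Rel G v p.1 p.2).card := by
      apply card_le_card
      intro p hp
      rw [mem_filter] at hp ⊢
      exact hp
    have h4 : (univ.filter fun p : Fin n × Fin n =>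
      ({v p.1, v p.2} : Finset (Pt 2)) ∈ G.E).card * (K * K) = 2 * m * (K * K) := by
      rw [hadj]
    have h5 : (univ.filter fun p : Fin n × Fin n =>
      ({v p.1, v p.2} : Finset (Pt 2)) ∈ G.E).card * (K * K) + n * (K * K) ≤
      (univ.filter fun p : Fin (n * K) × Fin (n * K) =>
        p.1 ≠ p.2 ∧ (cl p.1 = cl p.2 ∨ ({v (cl p.1), v (cl p.2)} : Finset (Pt 2)) ∈ G.E)).card +
        n * K := by
      convert h2
    omega
  · have h3 := fval_le (k := 1) (mkHyp (d := 2) (r := 2) (by norm_num) (by norm_num) q hGP F hF2)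
      (mkHyp_card_V _ _ _ _ _ _) (mkHyp_card_E _ _ _ _ _ _)
      (T := (2 * fval 2 2 1 m n * (K * K) + K * K + 4 * K) / 2) ?_
    · have h4 : 2 * ((2 * fval 2 2 1 m n * (K * K) + K * K + 4 * K) / 2) ≤
          2 * fval 2 2 1 m n * (K * K) + K * K + 4 * K := Nat.mul_div_le _ _
      omega
    · intro L hL
      obtain ⟨w, hws, hwL⟩ := line_unit L hL
      have hw0 : w ≠ 0 := by
        intro h
        rw [h] at hws
        simp at hws
      have h4 := hw w hws hGP hw0
      rw [mkHyp_numMet, Nat.le_div_iff_mul_le (by norm_num), mul_comm]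
      refine le_trans ?_ h4
      have h5 := met_le (R := Rel (K := K) G v)
        (Q := fun i j => gl w (q i) * gl w (q j) ≤ 0) (rel_irr G v) (rel_symm G v)
        (MeetsIdx q L) ?_
      · convert h5 using 2
      · intro i j _ hm
        unfold MeetsIdx at hm
        rw [coe_insert, coe_singleton, Set.image_pair] at hm
        exact met_prod hwL hm

/-- **The lower bound with a lower order term** -/
theorem sharp {n m : ℕ} (hm1 : 1 ≤ m) (hmn : m ≤ n.choose 2) :
    (m : ℝ) ^ 2 / (n : ℝ) ^ 2 + (m : ℝ) / n - 1 / 4 ≤ (fval 2 2 1 m n : ℝ) := by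
  have hn : 0 < n := by
    rcases Nat.eq_zero_or_pos n with h | h
    · subst h
      simp at hmn
      omega
    · exact h
  have hn' : (0 : ℝ) < n := by exact_mod_cast hn
  set a : ℝ := (m : ℝ) / n with ha
  set f : ℝ := (fval 2 2 1 m n : ℝ) with hf
  have ha0 : 0 ≤ a := by positivity
  have hma : (m : ℝ) = a * n := by
    rw [ha]
    field_simp
  have key : ∀ K : ℕ, 1 ≤ K → (a + 1 / 2) ^ 2 - f - 1 / 2 ≤ (a + 5 / 2) * (1 / (K : ℝ)) := by
    intro K hK
    obtain ⟨m', h1, h2, h3⟩ := blow (K := K) hmn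
    have hK' : (1 : ℝ) ≤ K := by exact_mod_cast hK
    have hK0 : (0 : ℝ) < K := by linarith
    have h4 := Pool.Agent.H12.RS.elss h1
    have h5 : (n : ℝ) * K * (K * (2 * a + 1) - 1) ≤ 2 * m' := by
      have h6 : (2 : ℝ) * m * (K * K) + n * (K * K) ≤ 2 * m' + n * K := by exact_mod_cast h2
      rw [hma] at h6
      linarith
    have h7 : (2 : ℝ) * fval 2 2 1 m' (n * K) ≤ 2 * f * (K * K) + K * K + 4 * K := by
      rw [hf]
      exact_mod_cast h3
    push_cast at h4
    have h8 : 0 ≤ K * (2 * a + 1) - 1 := by nlinarith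
    have h9 : ((n : ℝ) * K * (K * (2 * a + 1) - 1)) ^ 2 ≤ (2 * m') ^ 2 :=
      pow_le_pow_left₀ (by positivity) h5 2
    have hnK : (0 : ℝ) < ((n : ℝ) * K) ^ 2 := by positivity
    rw [div_le_iff₀ hnK] at h4
    have h10 : ((K : ℝ) * (2 * a + 1) - 1) ^ 2 ≤ 4 * fval 2 2 1 m' (n * K) := by
      have h11 : ((n : ℝ) * K) ^ 2 * ((K : ℝ) * (2 * a + 1) - 1) ^ 2 ≤
          ((n : ℝ) * K) ^ 2 * (4 * fval 2 2 1 m' (n * K)) := by nlinarith
      exact le_of_mul_le_mul_left h11 hnK
    have h12 : ((K : ℝ) * (2 * a + 1) - 1) ^ 2 ≤ 4 * f * (K * K) + 2 * (K * K) + 8 * K := by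
      linarith
    have h13 : ((a + 1 / 2) ^ 2 - f - 1 / 2) * (K * K) ≤ (a + 5 / 2) * K := by nlinarith
    rw [mul_one_div, le_div_iff₀ hK0]
    have h14 : ((a + 1 / 2) ^ 2 - f - 1 / 2) * K * K ≤ (a + 5 / 2) * K := by
      rw [mul_assoc]
      exact h13
    exact le_of_mul_le_mul_right h14 hK0
  have h1 : (a + 1 / 2) ^ 2 - f - 1 / 2 ≤ 0 := by
    by_contra h
    push Not at h
    have hpos : 0 < a + 5 / 2 := by linarith
    obtain ⟨k, hk⟩ := exists_nat_one_div_lt (div_pos h hpos)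
    have h2 := key (k + 1) (by omega)
    push_cast at h2
    rw [lt_div_iff₀ hpos] at hk
    linarith
  have h2 : (m : ℝ) ^ 2 / (n : ℝ) ^ 2 = a ^ 2 := by
    rw [ha, div_pow]
  rw [h2]
  nlinarith

end Pool.Agent.H93.EZ
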